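import Pool.Agent.W543.GE.Stm

set_option autoImplicit false

/-!
Project GE (MP_54c2ef_al), part CONV: `A ⊗ A` is the monoid algebra of the free monoid over `A`.
-/

open scoped TensorProduct Kronecker

universe u

namespace Pool.Agent.W53.GE

open Pool.Agent.W543.GE

variable (K : Type u) [Field K] (n : ℕ)

/-- the words as elements of the monoid algebra over `A` -/
noncomputable def wl : A K n →ₐ[K] MonoidAlgebra (A K n) (FreeMonoid (Fin n)) :=
  FreeAlgebra.lift K (fun i => MonoidAlgebra.single (FreeMonoid.of i) (1 : A K n))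

/-- the coefficients -/
noncomputable def cf : A K n →ₐ[K] MonoidAlgebra (A K n) (FreeMonoid (Fin n)) :=
  MonoidAlgebra.singleOneAlgHom

theorem cf_apply (a : A K n) : cf K n a = MonoidAlgebra.single 1 a := rfl

theorem wl_x (i : Fin n) : wl K n (x i) = MonoidAlgebra.single (FreeMonoid.of i) 1 := by
  rw [wl, FreeAlgebra.lift_ι_apply]

theorem comm_wl_cf (a b : A K n) : Commute (wl K n a) (cf K n b) := by
  induction a using FreeAlgebra.induction with
  | grade0 r => rw [AlgHom.commutes]; exact Algebra.commutes r _
  | grade1 i =>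
    rw [wl_x, cf_apply, commute_iff_eq, MonoidAlgebra.single_mul_single,
      MonoidAlgebra.single_mul_single, one_mul, mul_one, one_mul, mul_one]
  | mul a b ha hb => rw [map_mul]; exact ha.mul_left hb
  | add a b ha hb => rw [map_add]; exact ha.add_left hb

/-- the map from the tensor product -/
noncomputable def F : A K n ⊗[K] A K n →ₐ[K] MonoidAlgebra (A K n) (FreeMonoid (Fin n)) :=
  Algebra.TensorProduct.lift (wl K n) (cf K n) (comm_wl_cf K n)

theorem F_tmul (a b : A K n) : F K n (a ⊗ₜ b) = wl K n a * cf K n b :=
  Algebra.TensorProduct.lift_tmul _ _ _ _ _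

/-- the words as elements of the tensor product -/
noncomputable def wt : FreeMonoid (Fin n) →* A K n ⊗[K] A K n :=
  FreeMonoid.lift (fun i => x i ⊗ₜ 1)

theorem wt_comm (a : A K n) (w : FreeMonoid (Fin n)) :
    Commute ((Algebra.TensorProduct.includeRight : A K n →ₐ[K] A K n ⊗[K] A K n) a)
      (wt K n w) := by
  induction w using FreeMonoid.inductionOn with
  | one => rw [map_one]; exact Commute.one_right _
  | of i =>
    rw [wt, FreeMonoid.lift_eval_of, Algebra.TensorProduct.includeRight_apply, commute_iff_eq,
      Algebra.TensorProduct.tmul_mul_tmul, Algebra.TensorProduct.tmul_mul_tmul, one_mul, mul_one,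
      one_mul, mul_one]
  | mul v w hv hw => rw [map_mul]; exact hv.mul_right hw

/-- the inverse map -/
noncomputable def G : MonoidAlgebra (A K n) (FreeMonoid (Fin n)) →ₐ[K] A K n ⊗[K] A K n :=
  MonoidAlgebra.liftNCAlgHom Algebra.TensorProduct.includeRight (wt K n) (wt_comm K n)

theorem G_single (w : FreeMonoid (Fin n)) (a : A K n) :
    G K n (MonoidAlgebra.single w a) = (1 ⊗ₜ a) * wt K n w := by
  rw [G, MonoidAlgebra.coe_liftNCAlgHom]
  exact MonoidAlgebra.liftNC_single _ _ _ _

theorem F_wt (w : FreeMonoid (Fin n)) : F K n (wt K n w) = MonoidAlgebra.single w 1 := by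
  induction w using FreeMonoid.inductionOn with
  | one => rw [map_one, map_one]; rfl
  | of i => rw [wt, FreeMonoid.lift_eval_of, F_tmul, wl_x, map_one, mul_one]
  | mul v w hv hw =>
    rw [map_mul, map_mul, hv, hw, MonoidAlgebra.single_mul_single, one_mul]

theorem FG : (F K n).comp (G K n) = AlgHom.id K _ := by
  refine AlgHom.ext fun p => ?_
  induction p using MonoidAlgebra.induction_linear with
  | zero => rw [map_zero, map_zero]
  | add p q hp hq => rw [map_add, map_add, hp, hq]
  | single w a =>
    rw [AlgHom.comp_apply, G_single, map_mul, F_wt, F_tmul, map_one, one_mul, cf_apply,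
      MonoidAlgebra.single_mul_single, one_mul, mul_one]
    rfl

theorem GF : (G K n).comp (F K n) = AlgHom.id K _ := by
  apply Algebra.TensorProduct.ext
  · apply FreeAlgebra.hom_ext
    funext i
    change G K n (F K n (x i ⊗ₜ 1)) = x i ⊗ₜ 1
    rw [F_tmul, wl_x, map_one, mul_one, G_single, wt, FreeMonoid.lift_eval_of,
      Algebra.TensorProduct.tmul_mul_tmul, one_mul, one_mul]
  · refine AlgHom.ext fun a => ?_
    change G K n (F K n (1 ⊗ₜ a)) = 1 ⊗ₜ a
    rw [F_tmul, map_one, one_mul, cf_apply, G_single, map_one, mul_one]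

/-- the coefficient of the empty word, as an algebra homomorphism -/
noncomputable def c1 : MonoidAlgebra (A K n) (FreeMonoid (Fin n)) →ₐ[K] A K n :=
  MonoidAlgebra.liftNCAlgHom (AlgHom.id K _) (FreeMonoid.lift (fun _ => (0 : A K n)))
    (fun a w => by
      induction w using FreeMonoid.inductionOn with
      | one => rw [map_one]; exact Commute.one_right _
      | of i => rw [FreeMonoid.lift_eval_of]; exact Commute.zero_right _
      | mul v w hv hw => rw [map_mul]; exact hv.mul_right hw)

open Classical in
theorem lift_zero (w : FreeMonoid (Fin n)) :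
    (FreeMonoid.lift (fun _ => (0 : A K n)) : FreeMonoid (Fin n) →* A K n) w
      = if w = 1 then 1 else 0 := by
  cases w using FreeMonoid.casesOn with
  | one => simp
  | of_mul i w =>
    rw [map_mul, FreeMonoid.lift_eval_of, zero_mul, if_neg]
    intro h
    have := congrArg FreeMonoid.length h
    simp at this

open Classical in
theorem c1_single (w : FreeMonoid (Fin n)) (a : A K n) :
    c1 K n (MonoidAlgebra.single w a) = if w = 1 then a else 0 := by
  have : c1 K n (MonoidAlgebra.single w a) =
      a * (FreeMonoid.lift (fun _ => (0 : A K n)) : FreeMonoid (Fin n) →* A K n) w := by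
    rw [c1, MonoidAlgebra.coe_liftNCAlgHom]
    exact MonoidAlgebra.liftNC_single _ _ _ _
  rw [this, lift_zero]
  split_ifs <;> simp

theorem coeff_one (p : MonoidAlgebra (A K n) (FreeMonoid (Fin n))) : p.coeff 1 = c1 K n p := by
  induction p using MonoidAlgebra.induction_linear with
  | zero => rw [map_zero]; rfl
  | add p q hp hq => rw [map_add, MonoidAlgebra.coeff_add, Finsupp.add_apply, hp, hq]
  | single w a =>
    classical
    rw [c1_single, MonoidAlgebra.coeff_single, Finsupp.single_apply]

theorem c1_wl (a : A K n) : c1 K n (wl K n a) = algebraMap K (A K n) (eps a) := by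
  have h : (c1 K n).comp (wl K n) = (Algebra.ofId K (A K n)).comp eps := by
    apply FreeAlgebra.hom_ext
    funext i
    change c1 K n (wl K n (x i)) = algebraMap K (A K n) (eps (x i))
    have h0 : (FreeMonoid.of i : FreeMonoid (Fin n)) ≠ 1 := by
      intro h
      have := congrArg FreeMonoid.length h
      simp at this
    rw [wl_x, c1_single, if_neg h0]
    simp [eps, FreeAlgebra.algebraMapInv]
  exact DFunLike.congr_fun h a

theorem t_CONV : CONV_stmt.{u} := by
  intro K _ n
  refine ⟨(AlgEquiv.ofAlgHom (F K n) (G K n) (FG K n) (GF K n)).toRingEquiv, ?_, ?_, ?_⟩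
  · intro i
    change F K n (x i ⊗ₜ 1) = _
    rw [F_tmul, wl_x, map_one, mul_one]
  · intro a
    change F K n (1 ⊗ₜ a) = _
    rw [F_tmul, map_one, one_mul, cf_apply]
  · intro a b
    change (F K n (a ⊗ₜ b)).coeff 1 = _
    rw [coeff_one, F_tmul, map_mul, c1_wl, cf_apply, c1_single, if_pos rfl, ← Algebra.smul_def]

end Pool.Agent.W53.GE
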